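import Pool.Agent.HP778.Main

/-!
# The numbers `x ^ x` for the algebraic multiples `x` of `π`

`π ^ π` is the member `x = π` of the family `x ^ x`, `x` a positive algebraic multiple of `π`. We show
that `x ^ x` is transcendental for ALL these `x` with the possible exception of the numbers
`x = a π g ^ q` with rational `q`, where `a` and `g` are two fixed algebraic numbers: the exceptional
set is contained in one coset of a group of rank at most one. In particular `(p π) ^ (p π)` is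
transcendental for all primes `p` with at most two exceptions, and with at most one exception if
`π ^ π` is algebraic. The same holds for `(α π) ^ (β π)` for all algebraic `β ≠ 0` simultaneously, and
more generally for `(α y) ^ (β t)`, `y ≠ 0` any complex number and `t` any transcendental linear form
in logarithms of algebraic numbers, for instance for `x ^ x` on each line `x = α t`.

The proof. `(α y) ^ (β t)` is a product of powers of algebraic numbers if and only if
`t (log α + log y)` is a linear form in logarithms of algebraic numbers. For three such `α` the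
differences of the `log α` and their products with `t`, and `1` and `t`, are linear forms in
logarithms, and the strong six exponentials theorem of Roy (starting files) gives a linear relation
between the differences.
-/

set_option autoImplicit false

namespace Pool.Agent.Results.MP_4c2ad3_nt.AlgebraicMultiples

open Pool.Agent.HP778 hiding IsQuot
open Pool.Agent.H301R2.SSE (Lt Lt_mul Lt_log)

/-- The linear combinations, with algebraic coefficients, of `1` and of logarithms of algebraic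
numbers. -/
noncomputable def LogForms : Submodule (algebraicClosure ℚ ℂ) ℂ :=
  Submodule.span (algebraicClosure ℚ ℂ) ({1} ∪ {z : ℂ | IsAlgebraic ℚ (Complex.exp z)})

/-- The numbers `e ^ z` with `z` in `LogForms`, i.e. the numbers `e ^ γ α_1 ^ β_1 ⋯ α_k ^ β_k` with
algebraic `γ`, `α_i ≠ 0`, `β_i`; all nonzero algebraic numbers are of this form. -/
def Prods : Set ℂ := {x | ∃ z ∈ LogForms, Complex.exp z = x}

/-- The power `(e ^ w) ^ (β t)`, computed with the logarithm `w` of the base, is in `Prods` for some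
algebraic `β ≠ 0`. -/
def SomePower (t w : ℂ) : Prop :=
  ∃ β : ℂ, IsAlgebraic ℚ β ∧ β ≠ 0 ∧ Complex.exp (β * t * w) ∈ Prods

/-- The same for a positive real base `x` (with its real logarithm): `x ^ (β t)` is in `Prods` for some
algebraic `β ≠ 0`. -/
def SomeRealPower (t : ℂ) (x : ℝ) : Prop :=
  ∃ β : ℂ, IsAlgebraic ℚ β ∧ β ≠ 0 ∧ (x : ℂ) ^ (β * t) ∈ Prods

theorem mem_of_some {t w : ℂ} (h : SomePower t w) : t * w ∈ Lt := by
  obtain ⟨β, hβ, hβ0, z, hz, hze⟩ := h
  have h1 : β * t * w ∈ Lt := mem_of_exp hz hze.symm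
  have h2 := Lt_mul hβ.inv h1
  have h3 : β⁻¹ * (β * t * w) = t * w := by field_simp
  rwa [h3] at h2

/-- three members of the exceptional set -/
theorem key {t : ℂ} (ht : Transcendental ℚ t) (htL : t ∈ Lt) {l u v w : ℂ}
    (hu : IsAlgebraic ℚ (Complex.exp u)) (hv : IsAlgebraic ℚ (Complex.exp v))
    (hw : IsAlgebraic ℚ (Complex.exp w)) (mu : t * (u + l) ∈ Lt) (mv : t * (v + l) ∈ Lt)
    (mw : t * (w + l) ∈ Lt) (hne : v ≠ u) : ∃ q : ℚ, w = u + q * (v - u) := by
  by_contra hcon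
  push Not at hcon
  have hli : LinearIndependent ℚ ![v - u, w - u] := by
    rw [LinearIndependent.pair_iff]
    intro a b hab
    rw [Rat.smul_def, Rat.smul_def] at hab
    have hb : b = 0 := by
      by_contra hb
      refine hcon (-a / b) ?_
      have hb' : (b : ℂ) ≠ 0 := by exact_mod_cast hb
      push_cast
      field_simp
      linear_combination hab
    subst hb
    refine ⟨?_, rfl⟩
    rw [Rat.cast_zero, zero_mul, add_zero, mul_eq_zero] at hab
    rcases hab with h | h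
    · exact_mod_cast h
    · exact absurd (sub_eq_zero.1 h) hne
  have h2 := logs_poly' ht htL (D := 1) le_rfl ![v - u, w - u] ?_ hli ?_
  · omega
  · intro i
    fin_cases i
    · show IsAlgebraic ℚ (Complex.exp (v - u))
      rw [Complex.exp_sub, div_eq_mul_inv]
      exact hv.mul hu.inv
    · show IsAlgebraic ℚ (Complex.exp (w - u))
      rw [Complex.exp_sub, div_eq_mul_inv]
      exact hw.mul hu.inv
  · intro i
    refine ⟨Polynomial.X, by simp, by simp, ?_⟩
    rw [Polynomial.aeval_X]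
    fin_cases i
    · show t * (v - u) ∈ Lt
      have h3 := Lt.sub_mem mv mu
      have h4 : t * (v + l) - t * (u + l) = t * (v - u) := by ring
      rwa [h4] at h3
    · show t * (w - u) ∈ Lt
      have h3 := Lt.sub_mem mw mu
      have h4 : t * (w + l) - t * (u + l) = t * (w - u) := by ring
      rwa [h4] at h3

theorem part_one (t : ℂ) (htL : t ∈ LogForms) (ht : Transcendental ℚ t) (l : ℂ) :
    ∃ u v : ℂ, IsAlgebraic ℚ (Complex.exp u) ∧ IsAlgebraic ℚ (Complex.exp v) ∧
      ∀ w : ℂ, IsAlgebraic ℚ (Complex.exp w) → (∀ q : ℚ, w ≠ u + q * v) →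
        ¬ SomePower t (w + l) := by
  classical
  by_cases h0 : ∃ u : ℂ, IsAlgebraic ℚ (Complex.exp u) ∧ SomePower t (u + l)
  · obtain ⟨u, hu, hus⟩ := h0
    by_cases h1 : ∃ v : ℂ, v ≠ u ∧ IsAlgebraic ℚ (Complex.exp v) ∧ SomePower t (v + l)
    · obtain ⟨v, hvu, hv, hvs⟩ := h1
      refine ⟨u, v - u, hu, ?_, fun w hw hq hws => ?_⟩
      · rw [Complex.exp_sub, div_eq_mul_inv]
        exact hv.mul hu.inv
      · obtain ⟨q, h2⟩ := key ht htL hu hv hw (mem_of_some hus) (mem_of_some hvs)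
          (mem_of_some hws) hvu
        exact hq q h2
    · push Not at h1
      refine ⟨u, 0, hu, by rw [Complex.exp_zero]; exact isAlgebraic_one, fun w hw hq => ?_⟩
      refine h1 w ?_ hw
      have := hq 0
      simpa using this
  · push Not at h0
    exact ⟨0, 0, by rw [Complex.exp_zero]; exact isAlgebraic_one,
      by rw [Complex.exp_zero]; exact isAlgebraic_one, fun w hw _ => h0 w hw⟩

theorem ofReal_cpow' {a : ℝ} (ha : 0 < a) (x : ℂ) :
    (a : ℂ) ^ x = Complex.exp (x * ((Real.log a : ℝ) : ℂ)) := by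
  rw [Complex.cpow_def_of_ne_zero (by exact_mod_cast ha.ne'), Complex.ofReal_log ha.le, mul_comm]

theorem some_of_real {t : ℂ} {α y : ℝ} (hα : 0 < α) (hy : 0 < y) (h : SomeRealPower t (α * y)) :
    SomePower t (((Real.log α : ℝ) : ℂ) + ((Real.log y : ℝ) : ℂ)) := by
  obtain ⟨β, hβ, hβ0, hP⟩ := h
  refine ⟨β, hβ, hβ0, ?_⟩
  rw [ofReal_cpow' (mul_pos hα hy), Real.log_mul hα.ne' hy.ne', Complex.ofReal_add] at hP
  exact hP

theorem alg_exp_log {α : ℝ} (hα : 0 < α) (h : IsAlgebraic ℚ α) :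
    IsAlgebraic ℚ (Complex.exp ((Real.log α : ℝ) : ℂ)) := by
  rw [← Complex.ofReal_exp, Real.exp_log hα]
  exact (isAlgebraic_algebraMap_iff (A := ℂ) (FaithfulSMul.algebraMap_injective ℝ ℂ)).mpr h

theorem alg_mem {x : ℂ} (hx0 : x ≠ 0) (hx : IsAlgebraic ℚ x) : x ∈ Prods := by
  refine ⟨Complex.log x, Submodule.subset_span (Or.inr ?_), Complex.exp_log hx0⟩
  show IsAlgebraic ℚ (Complex.exp (Complex.log x))
  rwa [Complex.exp_log hx0]

/-- three positive algebraic numbers in the exceptional set -/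
theorem key_real {t : ℂ} (ht : Transcendental ℚ t) (htL : t ∈ Lt) {y : ℝ} (hy : 0 < y)
    {a b c : ℝ} (ha : 0 < a) (hb : 0 < b) (hc : 0 < c) (haa : IsAlgebraic ℚ a)
    (hba : IsAlgebraic ℚ b) (hca : IsAlgebraic ℚ c) (sa : SomeRealPower t (a * y))
    (sb : SomeRealPower t (b * y)) (sc : SomeRealPower t (c * y)) (hne : b ≠ a) :
    ∃ q : ℚ, Real.log c = Real.log a + q * (Real.log b - Real.log a) := by
  have hne' : ((Real.log b : ℝ) : ℂ) ≠ ((Real.log a : ℝ) : ℂ) := by
    intro h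
    have h1 : Real.log b = Real.log a := by exact_mod_cast h
    exact hne (Real.log_injOn_pos hb ha h1)
  obtain ⟨q, hq⟩ := key ht htL (alg_exp_log ha haa) (alg_exp_log hb hba) (alg_exp_log hc hca)
    (mem_of_some (some_of_real ha hy sa)) (mem_of_some (some_of_real hb hy sb))
    (mem_of_some (some_of_real hc hy sc)) hne'
  exact ⟨q, by exact_mod_cast hq⟩

theorem part_real {t : ℂ} (ht : Transcendental ℚ t) (htL : t ∈ Lt) {y : ℝ} (hy : 0 < y) :
    ∃ a g : ℝ, 0 < a ∧ 0 < g ∧ IsAlgebraic ℚ a ∧ IsAlgebraic ℚ g ∧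
      ∀ α : ℝ, 0 < α → IsAlgebraic ℚ α → (∀ q : ℚ, α ≠ a * g ^ (q : ℝ)) →
        ¬ SomeRealPower t (α * y) := by
  classical
  by_cases h0 : ∃ a : ℝ, 0 < a ∧ IsAlgebraic ℚ a ∧ SomeRealPower t (a * y)
  · obtain ⟨a, ha, haa, sa⟩ := h0
    by_cases h1 : ∃ b : ℝ, b ≠ a ∧ 0 < b ∧ IsAlgebraic ℚ b ∧ SomeRealPower t (b * y)
    · obtain ⟨b, hba, hb, hbb, sb⟩ := h1
      refine ⟨a, b / a, ha, div_pos hb ha, haa, ?_, fun c hc hcc hq sc => ?_⟩
      · rw [div_eq_mul_inv]; exact hbb.mul haa.inv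
      · obtain ⟨q, h2⟩ := key_real ht htL hy ha hb hc haa hbb hcc sa sb sc hba
        refine hq q (Real.log_injOn_pos hc (mul_pos ha (Real.rpow_pos_of_pos (div_pos hb ha) _)) ?_)
        rw [Real.log_mul ha.ne' (Real.rpow_pos_of_pos (div_pos hb ha) _).ne',
          Real.log_rpow (div_pos hb ha), Real.log_div hb.ne' ha.ne']
        exact h2
    · push Not at h1
      refine ⟨a, 1, ha, one_pos, haa, isAlgebraic_one, fun c hc hcc hq => ?_⟩
      refine h1 c ?_ hc hcc
      have := hq 0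
      simpa using this
  · push Not at h0
    exact ⟨1, 1, one_pos, one_pos, isAlgebraic_one, isAlgebraic_one, fun c hc hcc _ => h0 c hc hcc⟩

theorem primes3 {p q r : ℕ} (hp : p.Prime) (hq : q.Prime) (hr : r.Prime) (hpq : p ≠ q)
    (hpr : p ≠ r) (hqr : q ≠ r) (s : ℚ) :
    Real.log r ≠ Real.log p + s * (Real.log q - Real.log p) := by
  intro h
  have hinj : Function.Injective ![(⟨p, hp⟩ : Nat.Primes), ⟨q, hq⟩, ⟨r, hr⟩] := by
    intro i j hij
    fin_cases i <;> fin_cases j <;> simp_all [Subtype.ext_iff, eq_comm]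
  have h1 := Pool.Agent.W254.HP.log_primes_indep.comp _ hinj
  rw [Fintype.linearIndependent_iff] at h1
  have h2 := h1 ![1 - s, s, -1] (by
    rw [Fin.sum_univ_three]
    show (1 - s : ℚ) • ((Real.log (p : ℕ) : ℝ) : ℂ) + s • ((Real.log (q : ℕ) : ℝ) : ℂ) +
      (-1 : ℚ) • ((Real.log (r : ℕ) : ℝ) : ℂ) = 0
    have h3 : ((Real.log r : ℝ) : ℂ) =
        ((Real.log p : ℝ) : ℂ) + s * (((Real.log q : ℝ) : ℂ) - ((Real.log p : ℝ) : ℂ)) := by
      rw [h]; push_cast; ring
    rw [h3]
    simp only [Rat.smul_def]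
    push_cast
    ring) 2
  simp at h2

theorem primes2 {p r : ℕ} (hp : p.Prime) (hr : r.Prime) (hpr : p ≠ r) (s : ℚ) :
    Real.log r ≠ s * Real.log p := by
  intro h
  have hinj : Function.Injective ![(⟨p, hp⟩ : Nat.Primes), ⟨r, hr⟩] := by
    intro i j hij
    fin_cases i <;> fin_cases j <;> simp_all [Subtype.ext_iff, eq_comm]
  have h1 := Pool.Agent.W254.HP.log_primes_indep.comp _ hinj
  rw [Fintype.linearIndependent_iff] at h1
  have h2 := h1 ![s, -1] (by
    rw [Fin.sum_univ_two]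
    show s • ((Real.log (p : ℕ) : ℝ) : ℂ) + (-1 : ℚ) • ((Real.log (r : ℕ) : ℝ) : ℂ) = 0
    have h3 : ((Real.log r : ℝ) : ℂ) = s * ((Real.log p : ℝ) : ℂ) := by
      rw [h]; push_cast; ring
    rw [h3]
    simp only [Rat.smul_def]
    push_cast
    ring) 1
  simp at h2

theorem pi_tr : Transcendental ℚ ((Real.pi : ℝ) : ℂ) :=
  ofReal_transcendental Pool.Agent.H340R2.LW.transcendental_pi

theorem alg_ofReal {α : ℝ} (h : IsAlgebraic ℚ α) : IsAlgebraic ℚ (α : ℂ) :=
  (isAlgebraic_algebraMap_iff (A := ℂ) (FaithfulSMul.algebraMap_injective ℝ ℂ)).mpr h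

/-- `x ^ x` is transcendental if `x = α π` is not exceptional -/
theorem tr_of_not {α : ℝ} (hα : 0 < α) (hα' : IsAlgebraic ℚ α)
    (h : ¬ SomeRealPower Real.pi (α * Real.pi)) :
    Transcendental ℚ ((α * Real.pi) ^ (α * Real.pi)) ∧
      ∀ β : ℂ, IsAlgebraic ℚ β → β ≠ 0 → ((α * Real.pi : ℝ) : ℂ) ^ (β * Real.pi) ∉ Prods := by
  refine ⟨fun hx => h ?_, fun β hβ hβ0 hP => h ⟨β, hβ, hβ0, hP⟩⟩
  have hpos : 0 < α * Real.pi := mul_pos hα Real.pi_pos
  refine ⟨(α : ℂ), alg_ofReal hα', by exact_mod_cast hα.ne', ?_⟩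
  have h1 : ((α * Real.pi : ℝ) : ℂ) ^ ((α : ℂ) * Real.pi) =
      (((α * Real.pi) ^ (α * Real.pi) : ℝ) : ℂ) := by
    rw [Complex.ofReal_cpow hpos.le]
    push_cast
    rfl
  rw [h1]
  refine alg_mem ?_ (alg_ofReal hx)
  exact_mod_cast (Real.rpow_pos_of_pos hpos _).ne'

theorem alg_nat (n : ℕ) : IsAlgebraic ℚ (n : ℝ) := by
  have h := isAlgebraic_algebraMap (R := ℚ) (A := ℝ) (n : ℚ)
  simpa using h

/-- **Main result.** (1) Let `t` be transcendental and a linear form, with algebraic coefficients, in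
`1` and logarithms of algebraic numbers, and let `y = e ^ l` be any nonzero complex number. There are
two algebraic numbers `e ^ u` and `e ^ v` such that, for all algebraic `α = e ^ w ≠ 0` which are not of
the form `e ^ (u + q v)` with rational `q` and for all algebraic `β ≠ 0`, the power `(α y) ^ (β t)`,
`log (α y) = w + l`, is not in `Prods` (in particular it is transcendental).

(2) The case `y = t = π`: for all positive algebraic numbers `α` which are not of the form `a g ^ q`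
with rational `q`, for two fixed positive algebraic numbers `a` and `g`, the number `x ^ x`, `x = α π`,
is transcendental, and `(α π) ^ (β π)` is not in `Prods` for all algebraic `β ≠ 0`.

(3) There are `p` and `q` such that this holds for `α = r` for all primes `r` different from `p` and
`q`; (4) if `π ^ π` is algebraic, then `p = q` is possible.

(5) All nonzero algebraic numbers are in `Prods`. -/
theorem result :
    (∀ t ∈ LogForms, Transcendental ℚ t → ∀ l : ℂ, ∃ u v : ℂ,
      IsAlgebraic ℚ (Complex.exp u) ∧ IsAlgebraic ℚ (Complex.exp v) ∧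
      ∀ w : ℂ, IsAlgebraic ℚ (Complex.exp w) → (∀ q : ℚ, w ≠ u + q * v) →
        ∀ β : ℂ, IsAlgebraic ℚ β → β ≠ 0 → Complex.exp (β * t * (w + l)) ∉ Prods) ∧
    (∃ a g : ℝ, 0 < a ∧ 0 < g ∧ IsAlgebraic ℚ a ∧ IsAlgebraic ℚ g ∧
      ∀ α : ℝ, 0 < α → IsAlgebraic ℚ α → (∀ q : ℚ, α ≠ a * g ^ (q : ℝ)) →
        Transcendental ℚ ((α * Real.pi) ^ (α * Real.pi)) ∧
        ∀ β : ℂ, IsAlgebraic ℚ β → β ≠ 0 → ((α * Real.pi : ℝ) : ℂ) ^ (β * Real.pi) ∉ Prods) ∧
    (∃ p q : ℕ, ∀ r : ℕ, r.Prime → r ≠ p → r ≠ q →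
      Transcendental ℚ ((r * Real.pi) ^ (r * Real.pi)) ∧
      ∀ β : ℂ, IsAlgebraic ℚ β → β ≠ 0 → ((r * Real.pi : ℝ) : ℂ) ^ (β * Real.pi) ∉ Prods) ∧
    (IsAlgebraic ℚ (Real.pi ^ Real.pi) → ∃ p : ℕ, ∀ r : ℕ, r.Prime → r ≠ p →
      Transcendental ℚ ((r * Real.pi) ^ (r * Real.pi)) ∧
      ∀ β : ℂ, IsAlgebraic ℚ β → β ≠ 0 → ((r * Real.pi : ℝ) : ℂ) ^ (β * Real.pi) ∉ Prods) ∧
    (∀ x : ℂ, x ≠ 0 → IsAlgebraic ℚ x → x ∈ Prods) := by
  refine ⟨fun t ht htr l => ?_, ?_, ?_, fun hpp => ?_, fun x hx0 hx => alg_mem hx0 hx⟩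
  · obtain ⟨u, v, hu, hv, h⟩ := part_one t ht htr l
    exact ⟨u, v, hu, hv, fun w hw hq β hβ hβ0 hP => h w hw hq ⟨β, hβ, hβ0, hP⟩⟩
  · obtain ⟨a, g, ha, hg, haa, hga, h⟩ := part_real pi_tr pi_mem_Lt Real.pi_pos
    exact ⟨a, g, ha, hg, haa, hga, fun α hα hαa hq => tr_of_not hα hαa (h α hα hαa hq)⟩
  · by_cases h0 : ∃ p : ℕ, p.Prime ∧ SomeRealPower Real.pi (p * Real.pi)
    · obtain ⟨p, hp, sp⟩ := h0
      by_cases h1 : ∃ q : ℕ, q ≠ p ∧ q.Prime ∧ SomeRealPower Real.pi (q * Real.pi)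
      · obtain ⟨q, hqp, hq, sq⟩ := h1
        refine ⟨p, q, fun r hr hrp hrq => tr_of_not (by exact_mod_cast hr.pos) (alg_nat r) ?_⟩
        intro sr
        obtain ⟨s, h2⟩ := key_real pi_tr pi_mem_Lt Real.pi_pos
          (by exact_mod_cast hp.pos) (by exact_mod_cast hq.pos) (by exact_mod_cast hr.pos)
          (alg_nat p) (alg_nat q) (alg_nat r) sp sq sr (by exact_mod_cast hqp)
        exact primes3 hp hq hr hqp.symm hrp.symm hrq.symm s h2
      · push Not at h1
        exact ⟨p, p, fun r hr hrp _ => tr_of_not (by exact_mod_cast hr.pos) (alg_nat r)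
          (h1 r hrp hr)⟩
    · push Not at h0
      exact ⟨0, 0, fun r hr _ _ => tr_of_not (by exact_mod_cast hr.pos) (alg_nat r) (h0 r hr)⟩
  · have s1 : SomeRealPower Real.pi (((1 : ℕ) : ℝ) * Real.pi) := by
      by_contra hcon
      have h2 := (tr_of_not (α := ((1 : ℕ) : ℝ)) (by norm_num) (alg_nat 1) hcon).1
      rw [Nat.cast_one, one_mul] at h2
      exact h2 hpp
    by_cases h0 : ∃ p : ℕ, p.Prime ∧ SomeRealPower Real.pi (p * Real.pi)
    · obtain ⟨p, hp, sp⟩ := h0
      refine ⟨p, fun r hr hrp => tr_of_not (by exact_mod_cast hr.pos) (alg_nat r) ?_⟩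
      intro sr
      obtain ⟨s, h2⟩ := key_real pi_tr pi_mem_Lt Real.pi_pos
          (by norm_num) (by exact_mod_cast hp.pos) (by exact_mod_cast hr.pos)
          (alg_nat 1) (alg_nat p) (alg_nat r) s1 sp sr (by exact_mod_cast hp.one_lt.ne')
      rw [Nat.cast_one, Real.log_one, zero_add, sub_zero] at h2
      exact primes2 hp hr hrp.symm s h2
    · push Not at h0
      exact ⟨0, fun r hr _ => tr_of_not (by exact_mod_cast hr.pos) (alg_nat r) (h0 r hr)⟩

end Pool.Agent.Results.MP_4c2ad3_nt.AlgebraicMultiples
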