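import Pool.Agent.W2helper87.PE.Poly

/-!
# The polynomials `P` for which `π ^ P(π)` is algebraic

`π ^ π` is the number `π ^ P(π)` with `P = X`. We show that the polynomials `P` with algebraic
coefficients, of degree at most `N` and with `P(0) = 0`, for which `π ^ P(π)` is algebraic span a space
of dimension less than `2 √N` (in the space of all such `P`, of dimension `N`). In particular one of
the numbers `π ^ π`, `π ^ (π ^ 2)`, `π ^ (π ^ 3)` is transcendental, and also one of the three numbers
`π ^ P(π)` for any three linearly independent such polynomials of degree at most `3`.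

The proof. Let `E` be a finite dimensional space of linear forms in `1` and logarithms of algebraic
numbers, and let `B` be any finite dimensional space of complex numbers, both over the field of
algebraic numbers. The relations `∑ b_i a_i = 0`, `b_i` a basis of `B` and `a_i` in `E`, are vectors in
a hyperplane with independent coefficients, and the hyperplane case of the linear subgroup theorem
(starting files) shows that they form a space of dimension at most `dim B (dim B - 1)`. This gives
the inequality `dim B dim E ≤ dim (B E) + dim B (dim B - 1)`. For `E` spanned by the numbers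
`P(π) log π`, and `B` the polynomials in `π` of degree `< D`, `dim (B E) < N + D`; the relations between
the numbers `1` and `π` are added, they are independent of the other ones by Baker's theorem.
-/

set_option autoImplicit false

namespace Pool.Agent.Results.MP_4c2ad3_nt.PolynomialExponents

open Polynomial Module

/-- The linear combinations, with algebraic coefficients, of `1` and of logarithms of algebraic
numbers. -/
noncomputable def LogForms : Submodule (algebraicClosure ℚ ℂ) ℂ :=
  Submodule.span (algebraicClosure ℚ ℂ) ({1} ∪ {z : ℂ | IsAlgebraic ℚ (Complex.exp z)})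

/-- The polynomials `P` with algebraic coefficients, of degree at most `N` and with `P(0) = 0`, for
which the power `(e ^ z) ^ P(t) = e ^ (P(t) z)` is algebraic. -/
def Exceptional (t z : ℂ) (N : ℕ) : Set (algebraicClosure ℚ ℂ)[X] :=
  {P | P.coeff 0 = 0 ∧ P.natDegree ≤ N ∧ IsAlgebraic ℚ (Complex.exp (aeval t P * z))}

/-- The same for the powers `π ^ P(π)`. -/
def ExceptionalPi (N : ℕ) : Set (algebraicClosure ℚ ℂ)[X] :=
  {P | P.coeff 0 = 0 ∧ P.natDegree ≤ N ∧
    IsAlgebraic ℚ (((Real.pi : ℝ) : ℂ) ^ (aeval ((Real.pi : ℝ) : ℂ) P))}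

theorem exc_bound (t : ℂ) (htL : t ∈ LogForms) (ht : Transcendental ℚ t) (z : ℂ) (hz : z ≠ 0)
    (N : ℕ) :
    FiniteDimensional (algebraicClosure ℚ ℂ)
        (Submodule.span (algebraicClosure ℚ ℂ) (Exceptional t z N)) ∧
      finrank (algebraicClosure ℚ ℂ)
        (Submodule.span (algebraicClosure ℚ ℂ) (Exceptional t z N)) + 1 ≤ Nat.sqrt (4 * N + 1) := by
  have hle : Submodule.span (algebraicClosure ℚ ℂ) (Exceptional t z N) ≤
      (LinearMap.ker (lcoeff (algebraicClosure ℚ ℂ) 0)) ⊓
        (degreeLE (algebraicClosure ℚ ℂ) N) ⊓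
        (Submodule.comap (Pool.Agent.W2helper87.PE.evz t z) Pool.Agent.H301R2.SSE.LB) := by
    rw [Submodule.span_le]
    rintro P ⟨h1, h2, h3⟩
    refine ⟨⟨h1, ?_⟩, ?_⟩
    · rw [SetLike.mem_coe, mem_degreeLE]
      exact natDegree_le_iff_degree_le.1 h2
    · exact Pool.Agent.H301R2.SSE.LB_log h3
  have h1 := fun d => Pool.Agent.W2helper87.PE.poly_bound (N := N) ht htL hz
    (Submodule.span (algebraicClosure ℚ ℂ) (Exceptional t z N))
    (fun P hP => ⟨(hle hP).1.1, natDegree_le_iff_degree_le.2 (mem_degreeLE.1 (hle hP).1.2)⟩)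
    (fun P hP => (hle hP).2) d
  refine ⟨(h1 0).1, ?_⟩
  have h2 := Pool.Agent.W2helper87.PE.sqrt_of (r := 0) (M := N) (fun D hD => by
    obtain ⟨d, rfl⟩ : ∃ d, D = d + 1 := ⟨D - 1, by omega⟩
    have h3 := (h1 d).2
    rw [Nat.add_sub_cancel, zero_mul, add_zero]
    exact h3)
  rw [zero_add] at h2
  exact h2

theorem pi_ne : ((Real.log Real.pi : ℝ) : ℂ) ≠ 0 := by
  have h1 : (1 : ℝ) < Real.pi := by linarith [Real.pi_gt_three]
  exact_mod_cast (Real.log_pos h1).ne'

theorem pi_cpow (w : ℂ) : ((Real.pi : ℝ) : ℂ) ^ w =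
    Complex.exp (w * ((Real.log Real.pi : ℝ) : ℂ)) := by
  rw [Complex.cpow_def_of_ne_zero (by exact_mod_cast Real.pi_pos.ne'),
    Complex.ofReal_log Real.pi_pos.le, mul_comm]

theorem exc_pi (N : ℕ) :
    ExceptionalPi N = Exceptional ((Real.pi : ℝ) : ℂ) ((Real.log Real.pi : ℝ) : ℂ) N := by
  ext P
  simp only [ExceptionalPi, Exceptional, Set.mem_ofPred_eq, pi_cpow]

theorem pi_bound (N : ℕ) :
    FiniteDimensional (algebraicClosure ℚ ℂ)
        (Submodule.span (algebraicClosure ℚ ℂ) (ExceptionalPi N)) ∧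
      finrank (algebraicClosure ℚ ℂ)
        (Submodule.span (algebraicClosure ℚ ℂ) (ExceptionalPi N)) + 1 ≤ Nat.sqrt (4 * N + 1) := by
  rw [exc_pi]
  exact exc_bound _ Pool.Agent.HP778.pi_mem_Lt
    (Pool.Agent.HP778.ofReal_transcendental Pool.Agent.H340R2.LW.transcendental_pi) _ pi_ne N

open Classical in
theorem count_pi (N : ℕ) :
    ((Finset.Icc 1 N).filter (fun k : ℕ => IsAlgebraic ℚ (Real.pi ^ (Real.pi ^ k)))).card + 1 ≤
      Nat.sqrt (4 * N + 1) := by
  obtain ⟨hfd, hN⟩ := pi_bound N
  refine le_trans (Nat.add_le_add_right ?_ 1) hN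
  set S := (Finset.Icc 1 N).filter (fun k : ℕ => IsAlgebraic ℚ (Real.pi ^ (Real.pi ^ k))) with hS
  have hmem : ∀ k : S, (X : (algebraicClosure ℚ ℂ)[X]) ^ (k : ℕ) ∈
      Submodule.span (algebraicClosure ℚ ℂ) (ExceptionalPi N) := by
    rintro ⟨k, hk⟩
    apply Submodule.subset_span
    rw [hS, Finset.mem_filter, Finset.mem_Icc] at hk
    refine ⟨?_, ?_, ?_⟩
    · have h0 : ¬ (0 = k) := by omega
      rw [coeff_X_pow, if_neg h0]
    · rw [natDegree_X_pow]
      exact hk.1.2
    · rw [map_pow, aeval_X]
      have h1 : ((Real.pi : ℝ) : ℂ) ^ (((Real.pi : ℝ) : ℂ) ^ k) =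
          ((Real.pi ^ (Real.pi ^ k) : ℝ) : ℂ) := by
        rw [Complex.ofReal_cpow Real.pi_pos.le]
        push_cast
        rfl
      rw [h1]
      exact (isAlgebraic_algebraMap_iff (A := ℂ) (FaithfulSMul.algebraMap_injective ℝ ℂ)).mpr hk.2
  have hli : LinearIndependent (algebraicClosure ℚ ℂ)
      (fun k : S => (⟨_, hmem k⟩ : Submodule.span (algebraicClosure ℚ ℂ) (ExceptionalPi N))) := by
    apply LinearIndependent.of_comp (Submodule.subtype _)
    have h2 : LinearIndependent (algebraicClosure ℚ ℂ)
        (fun k : ℕ => (X : (algebraicClosure ℚ ℂ)[X]) ^ k) := by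
      have h3 := (Polynomial.basisMonomials (algebraicClosure ℚ ℂ)).linearIndependent
      rw [Polynomial.coe_basisMonomials] at h3
      convert h3 using 2 with k
      exact X_pow_eq_monomial k
    exact h2.comp (fun k : S => (k : ℕ)) Subtype.val_injective
  have h4 := hli.fintype_card_le_finrank
  rwa [Fintype.card_coe] at h4

open Classical in
/-- **Main result.** All dimensions are over the field of algebraic numbers.

(1) For every `N` the space spanned by the polynomials `P` with algebraic coefficients, of degree at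
most `N` and with `P(0) = 0`, for which `π ^ P(π)` is algebraic has dimension at most
`√(4 N + 1) - 1`. For `P = X` the number is `π ^ π`.

(2) The same holds for the numbers `e ^ (P(t) z)`, for every complex number `z ≠ 0` and every
transcendental `t` in `LogForms`.

(3) If three polynomials with algebraic coefficients, of degree at most `3` and without constant
term are linearly independent, then `π ^ P(π)` is transcendental for one of them. (4) In particular one
of the numbers `π ^ π`, `π ^ (π ^ 2)`, `π ^ (π ^ 3)` is transcendental. (5) At most `√(4 N + 1) - 1` of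
the numbers `π ^ (π ^ k)`, `1 ≤ k ≤ N`, are algebraic. -/
theorem result :
    (∀ N : ℕ, FiniteDimensional (algebraicClosure ℚ ℂ)
        (Submodule.span (algebraicClosure ℚ ℂ) (ExceptionalPi N)) ∧
      finrank (algebraicClosure ℚ ℂ)
        (Submodule.span (algebraicClosure ℚ ℂ) (ExceptionalPi N)) + 1 ≤ Nat.sqrt (4 * N + 1)) ∧
    (∀ t ∈ LogForms, Transcendental ℚ t → ∀ z : ℂ, z ≠ 0 → ∀ N : ℕ,
      FiniteDimensional (algebraicClosure ℚ ℂ)
        (Submodule.span (algebraicClosure ℚ ℂ) (Exceptional t z N)) ∧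
      finrank (algebraicClosure ℚ ℂ)
        (Submodule.span (algebraicClosure ℚ ℂ) (Exceptional t z N)) + 1 ≤ Nat.sqrt (4 * N + 1)) ∧
    (∀ P : Fin 3 → (algebraicClosure ℚ ℂ)[X], LinearIndependent (algebraicClosure ℚ ℂ) P →
      (∀ i, (P i).coeff 0 = 0 ∧ (P i).natDegree ≤ 3) →
      ∃ i, Transcendental ℚ (((Real.pi : ℝ) : ℂ) ^ (aeval ((Real.pi : ℝ) : ℂ) (P i)))) ∧
    (Transcendental ℚ (Real.pi ^ Real.pi) ∨ Transcendental ℚ (Real.pi ^ (Real.pi ^ 2)) ∨
      Transcendental ℚ (Real.pi ^ (Real.pi ^ 3))) ∧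
    (∀ N : ℕ, ((Finset.Icc 1 N).filter
      (fun k : ℕ => IsAlgebraic ℚ (Real.pi ^ (Real.pi ^ k)))).card + 1 ≤ Nat.sqrt (4 * N + 1)) := by
  refine ⟨pi_bound, exc_bound, ?_, ?_, count_pi⟩
  · intro P hP h
    by_contra hcon
    push Not at hcon
    obtain ⟨hfd, h3⟩ := pi_bound 3
    have hmem : ∀ i, P i ∈ Submodule.span (algebraicClosure ℚ ℂ) (ExceptionalPi 3) := fun i =>
      Submodule.subset_span ⟨(h i).1, (h i).2, not_not.1 (hcon i)⟩
    have hli : LinearIndependent (algebraicClosure ℚ ℂ)
        (fun i => (⟨_, hmem i⟩ : Submodule.span (algebraicClosure ℚ ℂ) (ExceptionalPi 3))) :=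
      LinearIndependent.of_comp (Submodule.subtype _) hP
    have h4 := hli.fintype_card_le_finrank
    rw [Fintype.card_fin] at h4
    have h5 : Nat.sqrt (4 * 3 + 1) < 4 := by rw [Nat.sqrt_lt']; norm_num
    omega
  · by_contra hcon
    push Not at hcon
    obtain ⟨h1, h2, h3⟩ := hcon
    have h4 := count_pi 3
    have h5 : Nat.sqrt (4 * 3 + 1) < 4 := by rw [Nat.sqrt_lt']; norm_num
    have h6 : (Finset.Icc 1 3).filter (fun k : ℕ => IsAlgebraic ℚ (Real.pi ^ (Real.pi ^ k))) =
        Finset.Icc 1 3 := by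
      rw [Finset.filter_eq_self]
      intro k hk
      rw [Finset.mem_Icc] at hk
      obtain rfl | rfl | rfl : k = 1 ∨ k = 2 ∨ k = 3 := by omega
      · rw [pow_one]; exact not_not.1 h1
      · exact not_not.1 h2
      · exact not_not.1 h3
    rw [h6] at h4
    simp only [Nat.card_Icc] at h4
    omega

end Pool.Agent.Results.MP_4c2ad3_nt.PolynomialExponents
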